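import Pool.Agent.helper20.FX.Spec

set_option autoImplicit false

namespace Pool.Agent.FXM

open Finset

theorem LGC_dvd (S : Finset ℕ) (φ : ℕ → ℕ) (m : ℕ) (hinj : ∀ i ∈ S, ∀ j ∈ S, φ i = φ j → i = j)
    (hlt : ∀ j ∈ S, φ j < m) : ∏ j ∈ S, (2 ^ (φ j + 1) - 1) ∣ Pr m := by
  classical
  have h1 : ∏ j ∈ S, (2 ^ (φ j + 1) - 1) = ∏ i ∈ S.image φ, (2 ^ (i + 1) - 1) :=
    (Finset.prod_image (f := fun i => 2 ^ (i + 1) - 1) hinj).symm
  rw [h1]
  apply Finset.prod_dvd_prod_of_subset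
  intro i hi
  obtain ⟨j, hj, rfl⟩ := Finset.mem_image.1 hi
  exact Finset.mem_range.2 (hlt j hj)

theorem LGC (hPRM : PRM_stmt) : LGC_stmt := by
  classical
  intro a d U hU n hn
  obtain ⟨han, hnd⟩ := hU n hn
  set H := (U.erase n).filter (fun j => n < j) with hH
  set B := (U.erase n).filter (fun j => ¬ n < j) with hB
  have hHm : ∀ j ∈ H, n < j ∧ j ≤ a + d := by
    intro j hj
    rw [hH, Finset.mem_filter, Finset.mem_erase] at hj
    exact ⟨hj.2, (hU j hj.1.2).2⟩
  have hBm : ∀ j ∈ B, j < n ∧ a ≤ j := by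
    intro j hj
    rw [hB, Finset.mem_filter, Finset.mem_erase] at hj
    have h1 := hj.1.1
    have h2 := hj.2
    exact ⟨by omega, (hU j hj.1.2).1⟩
  set h : ℕ := ∏ j ∈ H, (2 ^ (j - n) - 1) with hh
  set b : ℕ := ∏ j ∈ B, (2 ^ (n - j) - 1) with hb
  have hhd : h ∣ Pr (a + d - n) := by
    have h1 : h = ∏ j ∈ H, (2 ^ ((j - n - 1) + 1) - 1) := by
      apply Finset.prod_congr rfl
      intro j hj
      have := hHm j hj
      rw [Nat.sub_add_cancel (by omega)]
    rw [h1]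
    apply LGC_dvd H (fun j => j - n - 1)
    · intro i hi j hj hij
      have h2 := hHm i hi
      have h3 := hHm j hj
      have hij' : i - n - 1 = j - n - 1 := hij
      omega
    · intro j hj
      have h2 := hHm j hj
      show j - n - 1 < a + d - n
      omega
  have hbd : b ∣ Pr (n - a) := by
    have h1 : b = ∏ j ∈ B, (2 ^ ((n - j - 1) + 1) - 1) := by
      apply Finset.prod_congr rfl
      intro j hj
      have := hBm j hj
      rw [Nat.sub_add_cancel (by omega)]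
    rw [h1]
    apply LGC_dvd B (fun j => n - j - 1)
    · intro i hi j hj hij
      have h2 := hBm i hi
      have h3 := hBm j hj
      have hij' : n - i - 1 = n - j - 1 := hij
      omega
    · intro j hj
      have h2 := hBm j hj
      show n - j - 1 < n - a
      omega
  have hPr : Pr (a + d - n) * Pr (n - a) ∣ Pr d := by
    have h1 := hPRM (a + d - n) (n - a)
    rwa [show a + d - n + (n - a) = d by omega] at h1
  obtain ⟨g, hg⟩ := (mul_dvd_mul hhd hbd).trans hPr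
  set S : ℕ := ∑ j ∈ B, (n - j) with hS
  have hprodH : ∏ j ∈ H, (1 - (2 : ℚ) ^ j / 2 ^ n) = (-1) ^ H.card * (h : ℚ) := by
    have h1 : ∀ j ∈ H, (1 - (2 : ℚ) ^ j / 2 ^ n) = (-1) * ((2 ^ (j - n) - 1 : ℕ) : ℚ) := by
      intro j hj
      have h2 := hHm j hj
      have h3 : (2 : ℚ) ^ j = 2 ^ (j - n) * 2 ^ n := by
        rw [← pow_add, Nat.sub_add_cancel h2.1.le]
      have h4 : (2 : ℚ) ^ n ≠ 0 := by positivity
      rw [h3, mul_div_assoc, div_self h4, mul_one, Nat.cast_sub Nat.one_le_two_pow]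
      push_cast
      ring
    rw [Finset.prod_congr rfl h1, Finset.prod_mul_distrib, Finset.prod_const, hh]
    push_cast
    rfl
  have hprodB : ∏ j ∈ B, (1 - (2 : ℚ) ^ j / 2 ^ n) = (b : ℚ) / 2 ^ S := by
    have h1 : ∀ j ∈ B, (1 - (2 : ℚ) ^ j / 2 ^ n) =
        ((2 ^ (n - j) - 1 : ℕ) : ℚ) / 2 ^ (n - j) := by
      intro j hj
      have h2 := hBm j hj
      have h3 : (2 : ℚ) ^ n = 2 ^ (n - j) * 2 ^ j := by
        rw [← pow_add, Nat.sub_add_cancel h2.1.le]
      have h4 : (2 : ℚ) ^ j ≠ 0 := by positivity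
      have h5 : (2 : ℚ) ^ (n - j) ≠ 0 := by positivity
      rw [h3, Nat.cast_sub Nat.one_le_two_pow]
      push_cast
      field_simp
    rw [Finset.prod_congr rfl h1, Finset.prod_div_distrib, hb, hS, Finset.prod_pow_eq_pow_sum]
    push_cast
    rfl
  have hprod : ∏ j ∈ U.erase n, (1 - (2 : ℚ) ^ j / 2 ^ n) =
      ((-1) ^ H.card * (h : ℚ)) * ((b : ℚ) / 2 ^ S) := by
    rw [← hprodH, ← hprodB, hH, hB, Finset.prod_filter_mul_prod_filter_not]
  refine ⟨(-1) ^ H.card * 2 ^ S * g, ?_, ?_⟩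
  · rw [hprod, hg]
    push_cast
    have h5 : (2 : ℚ) ^ S ≠ 0 := by positivity
    have h6 : ((-1 : ℚ) ^ H.card) * (-1) ^ H.card = 1 := by
      rw [← mul_pow]
      norm_num
    calc (-1 : ℚ) ^ H.card * 2 ^ S * g * ((-1) ^ H.card * (h : ℚ) * ((b : ℚ) / 2 ^ S))
        = ((-1 : ℚ) ^ H.card * (-1) ^ H.card) * ((2 : ℚ) ^ S / 2 ^ S) * (h * b * g) := by ring
      _ = h * b * g := by rw [h6, div_self h5]; ring
  · have h1 : |(-1 : ℤ) ^ H.card * 2 ^ S * g| = 2 ^ S * g := by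
      rw [abs_mul, abs_mul, abs_pow, abs_neg, abs_one, one_pow, one_mul,
        abs_of_nonneg (by positivity : (0 : ℤ) ≤ 2 ^ S),
        abs_of_nonneg (by positivity : (0 : ℤ) ≤ (g : ℤ))]
    rw [h1]
    have h2 : 2 ^ S ≤ 2 ^ B.card * b := by
      rw [hS, hb, ← Finset.prod_pow_eq_pow_sum, ← Finset.prod_const, ← Finset.prod_mul_distrib]
      apply Finset.prod_le_prod'
      intro j hj
      have h3 := hBm j hj
      have h4 : 2 ≤ 2 ^ (n - j) := by
        calc 2 = 2 ^ 1 := rfl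
          _ ≤ 2 ^ (n - j) := Nat.pow_le_pow_right (by norm_num) (by omega)
      omega
    have h3 : 1 ≤ h := by
      rw [hh]
      apply Nat.one_le_iff_ne_zero.2
      rw [Finset.prod_ne_zero_iff]
      intro j hj
      have h3 := hHm j hj
      have h4 : 2 ≤ 2 ^ (j - n) := by
        calc 2 = 2 ^ 1 := rfl
          _ ≤ 2 ^ (j - n) := Nat.pow_le_pow_right (by norm_num) (by omega)
      omega
    have h4 : 2 ^ B.card ≤ 2 ^ U.card := by
      apply Nat.pow_le_pow_right (by norm_num)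
      apply Finset.card_le_card
      rw [hB]
      exact (Finset.filter_subset _ _).trans (Finset.erase_subset _ _)
    have h5 : 2 ^ S * g ≤ 2 ^ U.card * Pr d := by
      rw [hg]
      calc 2 ^ S * g ≤ (2 ^ B.card * b) * g := Nat.mul_le_mul_right _ h2
        _ = 2 ^ B.card * (1 * b * g) := by ring
        _ ≤ 2 ^ U.card * (h * b * g) :=
          Nat.mul_le_mul h4 (Nat.mul_le_mul_right _ (Nat.mul_le_mul_right _ h3))
    exact_mod_cast h5

end Pool.Agent.FXM
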